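import Mathlib

/-!
# An instance in which every maximal schedule has an A-configuration
-/

set_option autoImplicit false

namespace Pool.Agent.Results.MP_21ba69_lc.NoAFreeSchedule

/-- An instance: unit jobs with integer release dates and a strict partial order. -/
structure Inst (J : Type) where
  /-- release dates -/
  r : J → ℕ
  /-- precedence -/
  prec : J → J → Prop
  irrefl : ∀ a, ¬ prec a a
  trans : ∀ a b c, prec a b → prec b c → prec a c

/-- A preemptive schedule on two processors: during `[t i, t (i + 1)]`, `i < n`, exactly the jobs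
of the set `run i` (at most two) are processed; nothing is processed at other times. -/
structure Sched (J : Type) where
  /-- number of pieces -/
  n : ℕ
  /-- break points -/
  t : ℕ → ℝ
  /-- the jobs processed in a piece -/
  run : ℕ → Finset J
  nonneg : 0 ≤ t 0
  mono : StrictMono t
  two : ∀ i, (run i).card ≤ 2

section defs

variable {J : Type} [DecidableEq J]

/-- The amount of the job `a` processed up to time `T`. -/
noncomputable def Sched.done (P : Sched J) (a : J) (T : ℝ) : ℝ :=
  ∑ i ∈ Finset.range P.n, if a ∈ P.run i then min (P.t (i + 1)) T - min (P.t i) T else 0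

/-- The amount of the job `a` processed in `[x, y]`. -/
noncomputable def Sched.amt (P : Sched J) (a : J) (x y : ℝ) : ℝ := P.done a y - P.done a x

/-- The start time of `a`. -/
noncomputable def Sched.S (P : Sched J) (a : J) : ℝ :=
  sInf {x | ∃ i < P.n, a ∈ P.run i ∧ x = P.t i}

/-- The completion time of `a`. -/
noncomputable def Sched.C (P : Sched J) (a : J) : ℝ :=
  sSup {x | ∃ i < P.n, a ∈ P.run i ∧ x = P.t (i + 1)}

/-- `P` is a schedule for the instance `I`. -/
def Feasible (I : Inst J) (P : Sched J) : Prop :=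
  (∀ a, (∑ i ∈ Finset.range P.n, if a ∈ P.run i then P.t (i + 1) - P.t i else 0) = 1) ∧
  (∀ a, ∀ i < P.n, a ∈ P.run i → (I.r a : ℝ) ≤ P.t i) ∧
  ∀ a b, I.prec a b → ∀ i < P.n, b ∈ P.run i → P.C a ≤ P.t i

/-- `P` minimizes the total completion time. -/
def IsOptimal [Fintype J] (I : Inst J) (P : Sched J) : Prop :=
  Feasible I P ∧ ∀ Q, Feasible I Q → ∑ a, P.C a ≤ ∑ a, Q.C a

/-- The set of events. -/
def Sched.events (P : Sched J) : Set ℝ := {x | x = 0 ∨ ∃ a, x = P.S a ∨ x = P.C a}

/-- `[x, y]` is a block: `x < y` are consecutive events. -/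
def Sched.IsBlock (P : Sched J) (x y : ℝ) : Prop :=
  x ∈ P.events ∧ y ∈ P.events ∧ x < y ∧ ∀ z ∈ P.events, ¬ (x < z ∧ z < y)

/-- The number of the block which starts at the event `x`. -/
noncomputable def Sched.index (P : Sched J) (x : ℝ) : ℕ := {z | z ∈ P.events ∧ z ≤ x}.ncard

/-- `x` is `l`-normal. -/
def NormalNum (l : ℕ) (x : ℝ) : Prop := ∃ k : ℤ, x = k / 2 ^ l

/-- The block `[x, y]` with number `i` is `i`-normal. -/
def Sched.BlockNormal (P : Sched J) (x y : ℝ) : Prop :=
  NormalNum (P.index x) (y - x) ∧ ∀ a, NormalNum (P.index x + 1) (P.amt a x y)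

/-- `P` is normal. -/
def Sched.IsNormal (P : Sched J) : Prop := ∀ x y, P.IsBlock x y → P.BlockNormal x y

/-- The abnormality point of `P`. -/
noncomputable def Sched.abn (P : Sched J) : ℕ∞ :=
  sInf {i | ∃ x y, P.IsBlock x y ∧ ¬ P.BlockNormal x y ∧ i = (P.index x : ℕ∞)}

/-- The relation `P ⊴ Q`. -/
def Below [Fintype J] (I : Inst J) (P Q : Sched J) : Prop :=
  P = Q ∨ (IsOptimal I Q ∧ ¬ IsOptimal I P) ∨
  (IsOptimal I P ∧ IsOptimal I Q ∧ Q.IsNormal ∧ ¬ P.IsNormal) ∨
  (IsOptimal I P ∧ IsOptimal I Q ∧ ¬ P.IsNormal ∧ ¬ Q.IsNormal ∧ P.abn ≤ Q.abn)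

/-- `P` is a maximal schedule for `I`. -/
def IsMaximal [Fintype J] (I : Inst J) (P : Sched J) : Prop :=
  Feasible I P ∧ ∀ Q, Feasible I Q → Below I P Q → Below I Q P

/-- `P` has an A-configuration. -/
def HasAConfiguration (I : Inst J) (P : Sched J) : Prop :=
  ∃ (a b : J) (l : ℝ), 0 < l ∧ P.C a < P.C b ∧
    (P.amt a (P.C a - l) (P.C a) = l ∧
      ∀ u v, u ≤ P.C a - l → P.C a ≤ v → P.amt a u v = v - u → u = P.C a - l ∧ v = P.C a) ∧
    (P.amt b (P.C a) (P.C b) = P.C b - P.C a ∧ P.amt b (P.C a - l) (P.C a) = 0) ∧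
    P.S b < P.C a - l ∧
    ∀ x y, P.IsBlock x y → P.C a ≤ x → x ≤ P.C b → ∀ k, P.amt k x y ≠ 0 →
      ¬ I.prec a k ∧ ¬ I.prec k a

end defs

section basics

variable {J : Type} [DecidableEq J]

lemma term_mono (P : Sched J) (i : ℕ) {x y : ℝ} (h : x ≤ y) :
    min (P.t (i + 1)) x - min (P.t i) x ≤ min (P.t (i + 1)) y - min (P.t i) y := by
  have h1 := P.mono (Nat.lt_succ_self i)
  simp only [Nat.succ_eq_add_one] at h1
  rcases le_total (P.t (i + 1)) x with a | a <;> rcases le_total (P.t i) x with b | b <;>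
    rcases le_total (P.t (i + 1)) y with c | c <;> rcases le_total (P.t i) y with d | d <;>
    simp only [a, b, c, d, min_eq_left, min_eq_right] <;> linarith

lemma tele (P : Sched J) (n : ℕ) (x : ℝ) :
    ∑ i ∈ Finset.range n, (min (P.t (i + 1)) x - min (P.t i) x) =
      min (P.t n) x - min (P.t 0) x :=
  Finset.sum_range_sub (fun i => min (P.t i) x) n

lemma min_lip (c : ℝ) {x y : ℝ} (h : x ≤ y) : min c y - min c x ≤ y - x := by
  rcases le_total c x with a | a <;> rcases le_total c y with b | b <;>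
    simp only [a, b, min_eq_left, min_eq_right] <;> linarith

lemma min_mono (c : ℝ) {x y : ℝ} (h : x ≤ y) : min c x ≤ min c y := min_le_min_left c h

lemma done_mono (P : Sched J) (a : J) {x y : ℝ} (h : x ≤ y) : P.done a x ≤ P.done a y := by
  apply Finset.sum_le_sum
  intro i _
  split_ifs
  · exact term_mono P i h
  · exact le_rfl

/-- capacity -/
lemma cap (P : Sched J) (K : Finset J) {x y : ℝ} (h : x ≤ y) :
    ∑ a ∈ K, (P.done a y - P.done a x) ≤ 2 * (y - x) := by
  unfold Sched.done
  have h1 : ∀ a, (∑ i ∈ Finset.range P.n,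
      if a ∈ P.run i then min (P.t (i + 1)) y - min (P.t i) y else 0) -
      (∑ i ∈ Finset.range P.n, if a ∈ P.run i then min (P.t (i + 1)) x - min (P.t i) x else 0) =
      ∑ i ∈ Finset.range P.n, if a ∈ P.run i then
        (min (P.t (i + 1)) y - min (P.t i) y) - (min (P.t (i + 1)) x - min (P.t i) x) else 0 := by
    intro a
    rw [← Finset.sum_sub_distrib]
    apply Finset.sum_congr rfl
    intro i _
    split_ifs <;> simp
  simp only [h1]
  rw [Finset.sum_comm]
  calc ∑ i ∈ Finset.range P.n, ∑ a ∈ K, (if a ∈ P.run i then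
        (min (P.t (i + 1)) y - min (P.t i) y) - (min (P.t (i + 1)) x - min (P.t i) x) else 0)
      ≤ ∑ i ∈ Finset.range P.n,
        2 * ((min (P.t (i + 1)) y - min (P.t i) y) - (min (P.t (i + 1)) x - min (P.t i) x)) := by
        apply Finset.sum_le_sum
        intro i _
        have h2 := term_mono P i h
        rw [← Finset.sum_filter, Finset.sum_const, nsmul_eq_mul]
        apply mul_le_mul_of_nonneg_right _ (by linarith)
        have h3 : (K.filter fun a => a ∈ P.run i).card ≤ (P.run i).card := by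
          apply Finset.card_le_card
          intro a ha
          exact (Finset.mem_filter.1 ha).2
        exact_mod_cast h3.trans (P.two i)
    _ = 2 * ((min (P.t P.n) y - min (P.t 0) y) - (min (P.t P.n) x - min (P.t 0) x)) := by
        rw [← Finset.mul_sum, Finset.sum_sub_distrib, tele, tele]
    _ ≤ 2 * (y - x) := by
        have := min_lip (P.t P.n) h
        have := min_mono (P.t 0) h
        linarith

lemma lip (P : Sched J) (a : J) {x y : ℝ} (h : x ≤ y) : P.done a y - P.done a x ≤ y - x := by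
  unfold Sched.done
  rw [← Finset.sum_sub_distrib]
  calc ∑ i ∈ Finset.range P.n, ((if a ∈ P.run i then min (P.t (i + 1)) y - min (P.t i) y else 0) -
        if a ∈ P.run i then min (P.t (i + 1)) x - min (P.t i) x else 0)
      ≤ ∑ i ∈ Finset.range P.n,
        ((min (P.t (i + 1)) y - min (P.t i) y) - (min (P.t (i + 1)) x - min (P.t i) x)) := by
        apply Finset.sum_le_sum
        intro i _
        have h2 := term_mono P i h
        split_ifs <;> linarith
    _ = ((min (P.t P.n) y - min (P.t 0) y) - (min (P.t P.n) x - min (P.t 0) x)) := by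
        rw [Finset.sum_sub_distrib, tele, tele]
    _ ≤ y - x := by
        have := min_lip (P.t P.n) h
        have := min_mono (P.t 0) h
        linarith

lemma done_eq_zero (P : Sched J) (a : J) (T : ℝ) (h : ∀ i < P.n, a ∈ P.run i → T ≤ P.t i) :
    P.done a T = 0 := by
  apply Finset.sum_eq_zero
  intro i hi
  rw [Finset.mem_range] at hi
  split_ifs with ha
  · have h1 := h i hi ha
    have h2 := P.mono (Nat.lt_succ_self i)
    simp only [Nat.succ_eq_add_one] at h2
    rw [min_eq_right h1, min_eq_right (by linarith)]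
    ring
  · rfl

lemma bdd (P : Sched J) (a : J) : BddAbove {x | ∃ i < P.n, a ∈ P.run i ∧ x = P.t (i + 1)} := by
  refine ⟨P.t P.n, ?_⟩
  rintro x ⟨i, hi, _, rfl⟩
  exact P.mono.monotone hi

lemma bddB (P : Sched J) (a : J) : BddBelow {x | ∃ i < P.n, a ∈ P.run i ∧ x = P.t i} := by
  refine ⟨P.t 0, ?_⟩
  rintro x ⟨i, hi, _, rfl⟩
  exact P.mono.monotone (Nat.zero_le _)

lemma le_C (P : Sched J) (a : J) (i : ℕ) (hi : i < P.n) (ha : a ∈ P.run i) :
    P.t (i + 1) ≤ P.C a := le_csSup (bdd P a) ⟨i, hi, ha, rfl⟩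

lemma S_le (P : Sched J) (a : J) (i : ℕ) (hi : i < P.n) (ha : a ∈ P.run i) :
    P.S a ≤ P.t i := csInf_le (bddB P a) ⟨i, hi, ha, rfl⟩

variable {I : Inst J} {P : Sched J}

lemma done_eq_one (hP : Feasible I P) (a : J) {T : ℝ} (h : P.C a ≤ T) : P.done a T = 1 := by
  rw [← hP.1 a]
  apply Finset.sum_congr rfl
  intro i hi
  rw [Finset.mem_range] at hi
  split_ifs with ha
  · have h1 := le_C P a i hi ha
    have h2 := P.mono (Nat.lt_succ_self i)
    simp only [Nat.succ_eq_add_one] at h2
    rw [min_eq_left (by linarith), min_eq_left (by linarith)]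
  · rfl

lemma done_le_one (hP : Feasible I P) (a : J) (T : ℝ) : P.done a T ≤ 1 := by
  rw [← done_eq_one hP a (le_max_left (P.C a) T)]
  exact done_mono P a (le_max_right _ _)

lemma done_rel (hP : Feasible I P) (a : J) {T : ℝ} (h : T ≤ I.r a) : P.done a T = 0 :=
  done_eq_zero P a T fun i hi ha => h.trans (hP.2.1 a i hi ha)

lemma done_prec (hP : Feasible I P) (a b : J) (hab : I.prec a b) {T : ℝ} (h : T ≤ P.C a) :
    P.done b T = 0 :=
  done_eq_zero P b T fun i hi hb => h.trans (hP.2.2 a b hab i hi hb)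

/-- `C a ≥ T + (1 - done a T)`. -/
lemma C_ge (hP : Feasible I P) (a : J) (T : ℝ) (h : P.done a T < 1) :
    T + (1 - P.done a T) ≤ P.C a := by
  have h1 : T ≤ P.C a := by
    by_contra hcon
    push Not at hcon
    have := done_eq_one hP a hcon.le
    linarith
  have h2 := lip P a h1
  rw [done_eq_one hP a le_rfl] at h2
  linarith

lemma S_lt (P : Sched J) (a : J) (T : ℝ) (h : 0 < P.done a T) : P.S a < T := by
  by_contra hcon
  push Not at hcon
  have : P.done a T = 0 := done_eq_zero P a T fun i hi ha => hcon.trans (S_le P a i hi ha)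
  linarith

end basics


lemma C_prec {J : Type} [DecidableEq J] {I : Inst J} {P : Sched J} (hP : Feasible I P) (a b : J)
    (hab : I.prec a b) : P.C a + 1 ≤ P.C b := by
  have h0 := done_prec hP a b hab le_rfl
  have := C_ge hP b (P.C a) (by rw [h0]; norm_num)
  rw [h0] at this
  linarith

/-- The instance. -/
def inst : Inst (Fin 18) where
  r := fun i => if i = 5 ∨ i = 6 then 2 else 0
  prec := fun i j => (i ≤ 2 ∧ (j = 3 ∨ j = 4)) ∨ ((i = 5 ∨ i = 6) ∧ 7 ≤ j) ∨ (7 ≤ i ∧ i < j)
  irrefl := by decide +kernel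
  trans := by decide +kernel

instance : DecidableRel inst.prec := fun i j => by unfold inst; infer_instance

section lower

variable {P : Sched (Fin 18)}

lemma done_zero (hP : Feasible inst P) (a : Fin 18) : P.done a 0 = 0 :=
  done_rel hP a (by positivity)

lemma sorted (hP : Feasible inst P) (p q s : Fin 18) (hpq : p ≠ q) (hps : p ≠ s) (hqs : q ≠ s)
    (h1 : P.C p ≤ P.C q) (h2 : P.C q ≤ P.C s) :
    4 ≤ P.C p + P.C q + P.C s ∧ 3 / 2 ≤ P.C s := by
  have hpos : ∀ a : Fin 18, 1 ≤ P.C a := by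
    intro a
    have := C_ge hP a 0 (by rw [done_zero hP]; norm_num)
    rw [done_zero hP] at this
    linarith
  have key : ∀ T : ℝ, 0 ≤ T → P.done p T + P.done q T + P.done s T ≤ 2 * T := by
    intro T hT
    have := cap P {p, q, s} hT
    rw [Finset.sum_insert (by simp [hpq, hps]), Finset.sum_insert (by simp [hqs]),
      Finset.sum_singleton, done_zero hP, done_zero hP, done_zero hP] at this
    linarith
  have hp := hpos p
  have hq := hpos q
  have hs := hpos s
  have k1 := key (P.C s) (by linarith)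
  rw [done_eq_one hP p (h1.trans h2), done_eq_one hP q h2, done_eq_one hP s le_rfl] at k1
  have k2 := key (P.C q) (by linarith)
  rw [done_eq_one hP p h1, done_eq_one hP q le_rfl] at k2
  refine ⟨?_, by linarith⟩
  rcases lt_or_ge (P.done s (P.C q)) 1 with h | h
  · have := C_ge hP s (P.C q) h
    linarith
  · linarith

lemma first3 (hP : Feasible inst P) :
    4 ≤ P.C 0 + P.C 1 + P.C 2 ∧ ∃ m : Fin 18, m ≤ 2 ∧ 3 / 2 ≤ P.C m := by
  rcases le_total (P.C 0) (P.C 1) with h01 | h01 <;>
  rcases le_total (P.C 0) (P.C 2) with h02 | h02 <;>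
  rcases le_total (P.C 1) (P.C 2) with h12 | h12
  · have := sorted hP 0 1 2 (by decide) (by decide) (by decide) h01 h12
    exact ⟨by linarith [this.1], 2, by decide, this.2⟩
  · have := sorted hP 0 2 1 (by decide) (by decide) (by decide) h02 h12
    exact ⟨by linarith [this.1], 1, by decide, this.2⟩
  · have := sorted hP 0 1 2 (by decide) (by decide) (by decide) h01 h12
    exact ⟨by linarith [this.1], 2, by decide, this.2⟩
  · have := sorted hP 2 0 1 (by decide) (by decide) (by decide) h02 h01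
    exact ⟨by linarith [this.1], 1, by decide, this.2⟩
  · have := sorted hP 1 0 2 (by decide) (by decide) (by decide) h01 h02
    exact ⟨by linarith [this.1], 2, by decide, this.2⟩
  · have := sorted hP 1 0 2 (by decide) (by decide) (by decide) h01 h02
    exact ⟨by linarith [this.1], 2, by decide, this.2⟩
  · have := sorted hP 1 2 0 (by decide) (by decide) (by decide) h12 h02
    exact ⟨by linarith [this.1], 0, by decide, this.2⟩
  · have := sorted hP 2 1 0 (by decide) (by decide) (by decide) h12 h01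
    exact ⟨by linarith [this.1], 0, by decide, this.2⟩

lemma sum18 (f : Fin 18 → ℝ) : ∑ a, f a = f 0 + f 1 + f 2 + f 3 + f 4 + f 5 + f 6 + f 7 + f 8 +
    f 9 + f 10 + f 11 + f 12 + f 13 + f 14 + f 15 + f 16 + f 17 := by
  simp only [Fin.sum_univ_castSucc, Finset.univ_eq_empty, Finset.sum_empty]
  simp

/-- everything after the three first jobs -/
lemma core (hP : Feasible inst P) (hcost : ∑ a, P.C a ≤ 233 / 2) (x y : Fin 18)
    (hx : x = 3 ∨ x = 4) (hy : y = 3 ∨ y = 4) (hxy : x ≠ y) (hle : P.C x ≤ P.C y)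
    (hsum : P.C x + P.C y = P.C 3 + P.C 4) :
    ∑ a, P.C a = 233 / 2 ∧ P.C x = 7 / 2 ∧ P.C y = 4 ∧ P.done x 2 = 1 / 2 ∧ P.done x 3 = 1 / 2 ∧
      P.done y 3 = 1 / 2 ∧ P.done y (7 / 2) = 1 / 2 ∧ ∀ k : Fin 18, k ≤ 2 → P.C k ≤ 3 / 2 := by
  obtain ⟨h4, m, hm, hmC⟩ := first3 hP
  have px : ∀ k : Fin 18, k ≤ 2 → inst.prec k x := by
    intro k hk
    exact Or.inl ⟨hk, hx⟩
  have py : ∀ k : Fin 18, k ≤ 2 → inst.prec k y := by
    intro k hk
    exact Or.inl ⟨hk, hy⟩
  have x32 : P.done x (3 / 2) = 0 := done_prec hP m x (px m hm) hmC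
  have y32 : P.done y (3 / 2) = 0 := done_prec hP m y (py m hm) hmC
  have x2 : P.done x 2 ≤ 1 / 2 := by
    have := lip P x (show (3 / 2 : ℝ) ≤ 2 by norm_num)
    linarith
  have y2 : P.done y 2 ≤ 1 / 2 := by
    have := lip P y (show (3 / 2 : ℝ) ≤ 2 by norm_num)
    linarith
  have u2 : P.done 5 2 = 0 := done_rel hP 5 (by simp [inst])
  have v2 : P.done 6 2 = 0 := done_rel hP 6 (by simp [inst])
  have hC5 : 3 ≤ P.C 5 := by
    have := C_ge hP 5 2 (by rw [u2]; norm_num)
    linarith
  have hC6 : 3 ≤ P.C 6 := by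
    have := C_ge hP 6 2 (by rw [v2]; norm_num)
    linarith
  have h57 := C_prec hP 5 7 (by decide +kernel)
  have h67 := C_prec hP 6 7 (by decide +kernel)
  have h78 := C_prec hP 7 8 (by decide +kernel)
  have h89 := C_prec hP 8 9 (by decide +kernel)
  have h910 := C_prec hP 9 10 (by decide +kernel)
  have h1011 := C_prec hP 10 11 (by decide +kernel)
  have h1112 := C_prec hP 11 12 (by decide +kernel)
  have h1213 := C_prec hP 12 13 (by decide +kernel)
  have h1314 := C_prec hP 13 14 (by decide +kernel)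
  have h1415 := C_prec hP 14 15 (by decide +kernel)
  have h1516 := C_prec hP 15 16 (by decide +kernel)
  have h1617 := C_prec hP 16 17 (by decide +kernel)
  rw [sum18] at hcost ⊢
  obtain ⟨d, hd⟩ : ∃ d, P.C 7 = 4 + d := ⟨P.C 7 - 4, by ring⟩
  have hd0 : 0 ≤ d := by linarith
  have hrest : 109 + 11 * d + (P.C x + P.C y) ≤ P.C 0 + P.C 1 + P.C 2 + P.C 3 + P.C 4 + P.C 5 +
      P.C 6 + P.C 7 + P.C 8 + P.C 9 + P.C 10 + P.C 11 + P.C 12 + P.C 13 + P.C 14 + P.C 15 +
      P.C 16 + P.C 17 := by
    rw [hsum]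
    linarith
  have hx52 : 5 / 2 ≤ P.C x := by
    have := C_ge hP x (3 / 2) (by rw [x32]; norm_num)
    linarith
  have hd4 : d < 1 / 4 := by
    by_contra hcon
    push Not at hcon
    linarith
  -- the window `[2, T]`
  have hu : ∀ T, 3 + d ≤ T → P.done 5 T = 1 := fun T hT => done_eq_one hP 5 (by linarith)
  have hv : ∀ T, 3 + d ≤ T → P.done 6 T = 1 := fun T hT => done_eq_one hP 6 (by linarith)
  have hxn : x ≠ 5 ∧ x ≠ 6 ∧ x ≠ 7 := by
    rcases hx with rfl | rfl <;> decide
  have hyn : y ≠ 5 ∧ y ≠ 6 ∧ y ≠ 7 := by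
    rcases hy with rfl | rfl <;> decide
  have c2 : P.done 7 2 = 0 := done_prec hP 5 7 (by decide +kernel) (by linarith)
  have hcap : ∀ T, 3 + d ≤ T → P.done x T + P.done y T + P.done 7 T ≤
      P.done x 2 + P.done y 2 + 2 * (T - 2) - 2 := by
    intro T hT
    have := cap P {x, y, 5, 6, 7} (show (2 : ℝ) ≤ T by linarith)
    rw [Finset.sum_insert (by simp [hxy, hxn]), Finset.sum_insert (by simp [hyn]),
      Finset.sum_insert (by decide), Finset.sum_insert (by decide),
      Finset.sum_singleton, u2, v2, c2, hu T hT, hv T hT] at this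
    linarith
  have hc : ∀ T, T ≤ P.C 7 → T - 3 - d ≤ P.done 7 T := by
    intro T hT
    have := lip P 7 hT
    rw [done_eq_one hP 7 le_rfl] at this
    linarith
  have hx7 : P.done 7 (3 + d) ≥ 0 := by
    have := hc (3 + d) (by linarith)
    linarith
  have mx2 := done_mono P x (show (2 : ℝ) ≤ 3 + d by linarith)
  have my2 := done_mono P y (show (2 : ℝ) ≤ 3 + d by linarith)
  have k3 := hcap (3 + d) le_rfl
  have hx3 : P.done x (3 + d) < 1 := by linarith
  have hCx := C_ge hP x (3 + d) hx3
  have hCx' : 7 / 2 - d ≤ P.C x := by linarith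
  have hx7' : P.C x ≤ P.C 7 := by
    by_contra hcon
    push Not at hcon
    linarith
  have k4 := hcap (P.C x) (by linarith)
  have k5 := hc (P.C x) hx7'
  rw [done_eq_one hP x le_rfl] at k4
  have hyx : P.done y (P.C x) < 1 := by linarith
  have hCy := C_ge hP y (P.C x) hyx
  have hCy' : 4 - d ≤ P.C y := by linarith
  have hd00 : d = 0 := by linarith
  subst hd00
  have e1 : P.C x = 7 / 2 := by linarith
  have e2 : P.C y = 4 := by linarith
  rw [e1] at k4 k5 hCy hyx
  have e0 : (3 : ℝ) + 0 = 3 := by norm_num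
  rw [e0] at hCx k3 mx2 my2 hx3 hx7
  have e3 : P.done x 3 = 1 / 2 := by linarith
  have e4 : P.done x 2 = 1 / 2 := by linarith
  have e5 : P.done y (7 / 2) = 1 / 2 := by linarith
  have e6 : P.done y 2 = 1 / 2 := by linarith
  have e7 : P.done y 3 = 1 / 2 := by linarith
  refine ⟨by linarith, e1, e2, e4, e3, e7, e5, ?_⟩
  intro k hk
  by_contra hcon
  push Not at hcon
  have z := done_prec hP k x (px k hk) (le_refl _)
  rcases le_total (P.C k) 2 with h | h
  · have := lip P x h
    linarith
  · have := done_mono P x h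
    linarith

lemma core' (hP : Feasible inst P) (hcost : ∑ a, P.C a ≤ 233 / 2) :
    ∃ x y : Fin 18, (x = 3 ∨ x = 4) ∧ ∑ a, P.C a = 233 / 2 ∧ P.C x = 7 / 2 ∧ P.C y = 4 ∧
      P.done x 2 = 1 / 2 ∧ P.done x 3 = 1 / 2 ∧
      P.done y 3 = 1 / 2 ∧ P.done y (7 / 2) = 1 / 2 ∧ ∀ k : Fin 18, k ≤ 2 → P.C k ≤ 3 / 2 := by
  rcases le_total (P.C 3) (P.C 4) with h | h
  · exact ⟨3, 4, Or.inl rfl, core hP hcost 3 4 (Or.inl rfl) (Or.inr rfl) (by decide) h rfl⟩
  · exact ⟨4, 3, Or.inr rfl, core hP hcost 4 3 (Or.inr rfl) (Or.inl rfl) (by decide) h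
      (add_comm _ _)⟩

lemma hasA (hP : Feasible inst P) (hcost : ∑ a, P.C a ≤ 233 / 2) : HasAConfiguration inst P := by
  obtain ⟨x, y, hx, -, e1, e2, e3, e4, e5, e6, e7⟩ := core' hP hcost
  refine ⟨x, y, 1 / 2, by norm_num, by rw [e1, e2]; norm_num, ⟨?_, ?_⟩, ⟨?_, ?_⟩, ?_, ?_⟩
  · rw [Sched.amt, done_eq_one hP x le_rfl, e1]
    norm_num
    rw [e4]
    norm_num
  · intro u v hu hv huv
    rw [e1] at hu hv ⊢
    have h1 : P.done x v = 1 := done_eq_one hP x (by rw [e1]; exact hv)
    rw [Sched.amt, h1] at huv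
    rcases le_total 2 u with h | h
    · have m1 := done_mono P x h
      have m2 := done_mono P x (show u ≤ 3 by linarith)
      have : P.done x u = 1 / 2 := by linarith
      constructor <;> linarith
    · exfalso
      have m0 : 0 ≤ P.done x u := by
        have := lip P x (show u ≤ 3 by linarith)
        rcases le_total u 0 with h' | h'
        · have : P.done x u = 0 := done_eq_zero P x u fun i _ _ =>
            h'.trans (P.nonneg.trans (P.mono.monotone (Nat.zero_le i)))
          rw [this]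
        · have := done_mono P x h'
          rw [done_zero hP] at this
          exact this
      linarith
  · rw [Sched.amt, done_eq_one hP y le_rfl, e1, e2, e6]
    norm_num
  · rw [Sched.amt, e1, e6]
    norm_num
    rw [e5]
    norm_num
  · rw [e1]
    apply S_lt
    norm_num
    rw [e5]
    norm_num
  · intro s t hb hs _ k hk
    refine ⟨?_, ?_⟩
    · clear hk
      rcases hx with rfl | rfl <;> revert k <;> decide +kernel
    · intro h
      have hk2 : k ≤ 2 := by
        revert h
        rcases hx with rfl | rfl <;> clear hk <;> revert k <;> decide +kernel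
      apply hk
      have := e7 k hk2
      have hlt := hb.2.2.1
      rw [Sched.amt, done_eq_one hP k (by rw [e1] at hs; linarith),
        done_eq_one hP k (by rw [e1] at hs; linarith)]
      norm_num

end lower

/-! ### The explicit schedule -/

/-- twice the break points -/
def T2 (i : ℕ) : ℕ := if i ≤ 4 then i else if i = 5 then 6 else if i = 6 then 7 else 2 * i - 6

/-- the jobs processed in the pieces -/
def R0 (i : ℕ) : Finset (Fin 18) :=
  if i = 0 then {0, 1} else if i = 1 then {0, 2} else if i = 2 then {1, 2} else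
  if i = 3 then {3, 4} else if i = 4 then {5, 6} else if i = 5 then {3, 7} else
  if i = 6 then {4, 7} else if i ≤ 16 then {Fin.ofNat 18 (i + 1)} else ∅

lemma T2_lt (i : ℕ) : T2 i < T2 (i + 1) := by
  unfold T2
  split_ifs <;> omega

lemma T2_mono : Monotone T2 := monotone_nat_of_le_succ fun i => (T2_lt i).le

/-- The schedule. -/
noncomputable def P0 : Sched (Fin 18) where
  n := 17
  t := fun i => (T2 i : ℝ) / 2
  run := R0
  nonneg := by positivity
  mono := by
    apply strictMono_nat_of_lt_succ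
    intro i
    have := T2_lt i
    have h : (T2 i : ℝ) < T2 (i + 1) := by exact_mod_cast this
    linarith
  two := by
    intro i
    unfold R0
    split_ifs <;> first | decide | simp

/-- the last piece of a job -/
def last : Fin 18 → ℕ := ![1, 2, 2, 5, 6, 4, 4, 6, 7, 8, 9, 10, 11, 12, 13, 14, 15, 16]

/-- the first piece of a job -/
def first : Fin 18 → ℕ := ![0, 0, 1, 3, 3, 4, 4, 5, 7, 8, 9, 10, 11, 12, 13, 14, 15, 16]

lemma C0 (a : Fin 18) : P0.C a = (T2 (last a + 1) : ℝ) / 2 := by
  have hg : IsGreatest {x | ∃ i < P0.n, a ∈ P0.run i ∧ x = P0.t (i + 1)}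
      ((T2 (last a + 1) : ℝ) / 2) := by
    constructor
    · refine ⟨last a, ?_, ?_, rfl⟩
      · change last a < 17
        revert a
        decide +kernel
      · change a ∈ R0 (last a)
        revert a
        decide +kernel
    · rintro x ⟨i, hi, ha, rfl⟩
      change i < 17 at hi
      change a ∈ R0 i at ha
      have h1 : i ≤ last a := by
        revert i
        revert a
        decide +kernel
      have h2 : T2 (i + 1) ≤ T2 (last a + 1) := T2_mono (by omega)
      have h3 : (T2 (i + 1) : ℝ) ≤ T2 (last a + 1) := by exact_mod_cast h2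
      change (T2 (i + 1) : ℝ) / 2 ≤ _
      linarith
  exact hg.csSup_eq

lemma S0 (a : Fin 18) : P0.S a = (T2 (first a) : ℝ) / 2 := by
  have hg : IsLeast {x | ∃ i < P0.n, a ∈ P0.run i ∧ x = P0.t i}
      ((T2 (first a) : ℝ) / 2) := by
    constructor
    · refine ⟨first a, ?_, ?_, rfl⟩
      · change first a < 17
        revert a
        decide +kernel
      · change a ∈ R0 (first a)
        revert a
        decide +kernel
    · rintro x ⟨i, hi, ha, rfl⟩
      change i < 17 at hi
      change a ∈ R0 i at ha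
      have h1 : first a ≤ i := by
        revert i
        revert a
        decide +kernel
      have h2 : T2 (first a) ≤ T2 i := T2_mono h1
      have h3 : (T2 (first a) : ℝ) ≤ T2 i := by exact_mod_cast h2
      change _ ≤ (T2 i : ℝ) / 2
      linarith
  exact hg.csInf_eq

lemma feas0 : Feasible inst P0 := by
  refine ⟨?_, ?_, ?_⟩
  · intro a
    have h : (∑ i ∈ Finset.range 17, if a ∈ R0 i then ((T2 (i + 1) : ℤ) - T2 i) else 0) = 2 := by
      revert a
      decide +kernel
    have h' : (∑ i ∈ Finset.range 17, if a ∈ R0 i then ((T2 (i + 1) : ℝ) - T2 i) else 0) = 2 := by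
      exact_mod_cast h
    calc (∑ i ∈ Finset.range 17, if a ∈ R0 i then ((T2 (i + 1) : ℝ) / 2 - (T2 i : ℝ) / 2) else 0)
        = (∑ i ∈ Finset.range 17, if a ∈ R0 i then ((T2 (i + 1) : ℝ) - T2 i) else 0) / 2 := by
          rw [Finset.sum_div]
          apply Finset.sum_congr rfl
          intro i _
          split_ifs <;> ring
      _ = 1 := by rw [h']; norm_num
  · intro a i hi ha
    have h : 2 * inst.r a ≤ T2 i := by
      change i < 17 at hi
      change a ∈ R0 i at ha
      revert i
      revert a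
      decide +kernel
    have h' : (2 * inst.r a : ℝ) ≤ T2 i := by exact_mod_cast h
    change (inst.r a : ℝ) ≤ (T2 i : ℝ) / 2
    linarith
  · intro a b hab i hi hb
    have h : last a + 1 ≤ i := by
      change i < 17 at hi
      change b ∈ R0 i at hb
      revert i
      revert hab
      revert b
      revert a
      decide +kernel
    rw [C0]
    have h2 := T2_mono h
    have h3 : (T2 (last a + 1) : ℝ) ≤ T2 i := by exact_mod_cast h2
    change _ ≤ (T2 i : ℝ) / 2
    linarith

lemma cost0 : ∑ a, P0.C a = 233 / 2 := by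
  have h : ∑ a : Fin 18, T2 (last a + 1) = 233 := by decide +kernel
  have h' : ∑ a : Fin 18, (T2 (last a + 1) : ℝ) = 233 := by exact_mod_cast h
  rw [← h', Finset.sum_div]
  apply Finset.sum_congr rfl
  intro a _
  exact C0 a

lemma opt0 : IsOptimal inst P0 := by
  refine ⟨feas0, ?_⟩
  intro Q hQ
  rw [cost0]
  by_contra hcon
  push Not at hcon
  obtain ⟨x, y, -, h, -⟩ := core' hQ hcon.le
  linarith

lemma opt_cost {P : Sched (Fin 18)} (hP : IsOptimal inst P) : ∑ a, P.C a ≤ 233 / 2 := by
  rw [← cost0]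
  exact hP.2 P0 feas0

/-- all events are half-integers -/
lemma event_half {x : ℝ} (hx : x ∈ P0.events) : ∃ k : ℕ, x = (k : ℝ) / 2 := by
  rcases hx with rfl | ⟨a, rfl | rfl⟩
  · exact ⟨0, by norm_num⟩
  · exact ⟨_, S0 a⟩
  · exact ⟨_, C0 a⟩

lemma done_half (a : Fin 18) (k : ℕ) : ∃ m : ℤ, P0.done a ((k : ℝ) / 2) = (m : ℝ) / 2 := by
  refine ⟨∑ i ∈ Finset.range 17,
    if a ∈ R0 i then ((min (T2 (i + 1)) k : ℕ) : ℤ) - ((min (T2 i) k : ℕ) : ℤ) else 0, ?_⟩
  push_cast
  rw [Finset.sum_div]
  unfold Sched.done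
  apply Finset.sum_congr rfl
  intro i _
  change (if a ∈ R0 i then min ((T2 (i + 1) : ℝ) / 2) ((k : ℝ) / 2) -
    min ((T2 i : ℝ) / 2) ((k : ℝ) / 2) else 0) = _
  rw [min_div_div_right (by norm_num : (0 : ℝ) ≤ 2), min_div_div_right (by norm_num : (0 : ℝ) ≤ 2)]
  split_ifs <;> ring

lemma events_finite : P0.events.Finite := by
  have : P0.events ⊆ {0} ∪ (Set.range P0.S ∪ Set.range P0.C) := by
    rintro x (rfl | ⟨a, rfl | rfl⟩)
    · left; rfl
    · right; left; exact ⟨a, rfl⟩
    · right; right; exact ⟨a, rfl⟩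
  exact ((Set.finite_singleton 0).union
    ((Set.finite_range _).union (Set.finite_range _))).subset this

lemma index_pos {x : ℝ} (hx : x ∈ P0.events) : 1 ≤ P0.index x := by
  unfold Sched.index
  have hf : {z | z ∈ P0.events ∧ z ≤ x}.Finite := events_finite.subset fun z hz => hz.1
  rw [Nat.one_le_iff_ne_zero, ne_eq, Set.ncard_eq_zero hf]
  intro h
  have : x ∈ ({z | z ∈ P0.events ∧ z ≤ x} : Set ℝ) := ⟨hx, le_rfl⟩
  rw [h] at this
  exact this

lemma normal_half (l : ℕ) (hl : 1 ≤ l) (m : ℤ) : NormalNum l ((m : ℝ) / 2) := by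
  obtain ⟨j, rfl⟩ : ∃ j, l = j + 1 := ⟨l - 1, by omega⟩
  refine ⟨m * 2 ^ j, ?_⟩
  push_cast
  rw [pow_succ]
  field_simp

lemma normal0 : P0.IsNormal := by
  rintro x y ⟨hx, hy, -, -⟩
  have hi := index_pos hx
  obtain ⟨k, rfl⟩ := event_half hx
  obtain ⟨l, rfl⟩ := event_half hy
  refine ⟨?_, ?_⟩
  · have := normal_half (P0.index ((k : ℝ) / 2)) hi ((l : ℤ) - k)
    convert this using 1
    push_cast
    ring
  · intro a
    obtain ⟨m, hm⟩ := done_half a l
    obtain ⟨m', hm'⟩ := done_half a k
    have := normal_half (P0.index ((k : ℝ) / 2) + 1) (by omega) (m - m')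
    convert this using 1
    rw [Sched.amt, hm, hm']
    push_cast
    ring

lemma max0 : IsMaximal inst P0 := by
  refine ⟨feas0, ?_⟩
  rintro Q hQ (h | h | h | h)
  · exact Or.inl h.symm
  · exact absurd opt0 h.2
  · exact absurd normal0 h.2.2.2
  · exact absurd normal0 h.2.2.1

/-- There is an instance which has maximal schedules, and each of them has an A-configuration. -/
theorem result : ∃ (J : Type) (_ : Fintype J) (_ : DecidableEq J) (I : Inst J),
    (∃ P, IsMaximal I P) ∧ ∀ P, IsMaximal I P → HasAConfiguration I P := by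
  refine ⟨Fin 18, inferInstance, inferInstance, inst, ⟨P0, max0⟩, ?_⟩
  intro P hP
  have hopt : IsOptimal inst P := by
    by_contra hcon
    rcases hP.2 P0 feas0 (Or.inr (Or.inl ⟨opt0, hcon⟩)) with h | h | h | h
    · exact hcon (h ▸ opt0)
    · exact hcon h.1
    · exact hcon h.2.1
    · exact hcon h.2.1
  exact hasA hP.1 (opt_cost hopt)

end Pool.Agent.Results.MP_21ba69_lc.NoAFreeSchedule
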